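import Pool.Agent.K6.H93.AffPoly

/-!
# The algebraic part of the plane theorem
-/

namespace Pool.Agent.K6.H93.Aff

open MvPolynomial

variable {p : ℕ} [Fact p.Prime]

lemma prod_X_sub_C (i : Fin 2) :
    ∏ s ∈ (Finset.univ : Finset (ZMod p)), (X i - C s : MvPolynomial (Fin 2) (ZMod p)) =
      X i ^ p - X i := by
  have hp1 : 1 < p := (Fact.out : p.Prime).one_lt
  have hroots := FiniteField.roots_X_pow_card_sub_X (ZMod p)
  have hdeg := FiniteField.X_pow_card_sub_X_natDegree_eq (ZMod p) hp1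
  rw [ZMod.card] at hroots
  have hmon : (Polynomial.X ^ p - Polynomial.X : Polynomial (ZMod p)).Monic := by
    apply Polynomial.monic_X_pow_sub
    rw [Polynomial.degree_X]
    exact_mod_cast hp1
  have h := Polynomial.prod_multiset_X_sub_C_of_monic_of_roots_card_eq hmon (by
    rw [hroots, hdeg]
    simp [ZMod.card])
  rw [hroots] at h
  have h2 := congrArg (Polynomial.aeval (X i : MvPolynomial (Fin 2) (ZMod p))) h
  change Polynomial.aeval (X i : MvPolynomial (Fin 2) (ZMod p))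
    (∏ a : ZMod p, (Polynomial.X - Polynomial.C a)) = _ at h2
  rw [map_prod] at h2
  simpa [MvPolynomial.algebraMap_eq] using h2

lemma coeff_XpX (i : Fin 2) :
    coeff (Finsupp.single i p) (X i ^ p - X i : MvPolynomial (Fin 2) (ZMod p)) = 1 := by
  have hp : 1 < p := (Fact.out : p.Prime).one_lt
  rw [coeff_sub, coeff_X_pow, if_pos rfl, coeff_X, if_neg, sub_zero]
  intro h
  have := DFunLike.congr_fun h i
  simp at this
  omega

lemma XpX_ne_zero (i : Fin 2) :
    (X i ^ p - X i : MvPolynomial (Fin 2) (ZMod p)) ≠ 0 := by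
  intro h
  have := coeff_XpX (p := p) i
  rw [h] at this
  simp at this

lemma le_totalDegree_XpX (i : Fin 2) :
    p ≤ (X i ^ p - X i : MvPolynomial (Fin 2) (ZMod p)).totalDegree := by
  have h := le_totalDegree (p := (X i ^ p - X i : MvPolynomial (Fin 2) (ZMod p)))
      (s := Finsupp.single i p)
      (by rw [mem_support_iff, coeff_XpX]; exact one_ne_zero)
  simpa using h

/-- A polynomial vanishing at all points is a combination of `X^p - X` and `Y^p - Y`. -/
lemma vanish_rep (f : MvPolynomial (Fin 2) (ZMod p)) (hv : ∀ x, eval x f = 0) (α : ℕ)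
    (hd : f.totalDegree ≤ p + α) :
    ∃ r v : MvPolynomial (Fin 2) (ZMod p), r.totalDegree ≤ α ∧ v.totalDegree ≤ α ∧
      f = (X 0 ^ p - X 0) * r + (X 1 ^ p - X 1) * v := by
  obtain ⟨h, hh, hf⟩ := combinatorial_nullstellensatz_exists_linearCombination
    (fun _ : Fin 2 => (Finset.univ : Finset (ZMod p))) (fun _ => Finset.univ_nonempty) f
    (fun x _ => hv x)
  have hdeg : ∀ i, (h i).totalDegree ≤ α := by
    intro i
    by_cases h0 : h i = 0
    · rw [h0]; simp
    have h1 := hh i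
    rw [prod_X_sub_C, totalDegree_mul_of_isDomain (XpX_ne_zero i) h0] at h1
    have h2 := le_totalDegree_XpX (p := p) i
    omega
  refine ⟨h 0, h 1, hdeg 0, hdeg 1, ?_⟩
  rw [Finsupp.linearCombination_apply, Finsupp.sum_fintype _ _ (by simp), Fin.sum_univ_two,
    prod_X_sub_C, prod_X_sub_C] at hf
  rw [hf]
  simp only [smul_eq_mul]
  ring

lemma sg_dvd (u : ZMod p × ZMod p) (r v : MvPolynomial (Fin 2) (ZMod p))
    (h : Lf u ∣ (X 0 ^ p - X 0) * r + (X 1 ^ p - X 1) * v) : Lf u ∣ v - C u.1 * r := by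
  rw [lf_dvd_iff] at h ⊢
  simp only [map_add, map_mul, map_sub, map_pow, sg_X0, sg_X1, sg_C] at h ⊢
  have hch : CharP (MvPolynomial (Fin 2) (ZMod p)) p := inferInstance
  have e : (C u.2 - C u.1 * X 1 : MvPolynomial (Fin 2) (ZMod p)) ^ p =
      C u.2 - C u.1 * X 1 ^ p := by
    rw [sub_pow_char, mul_pow, ← C_pow, ← C_pow, ZMod.pow_card, ZMod.pow_card]
  rw [e] at h
  have h2 : (X 1 ^ p - X 1 : MvPolynomial (Fin 2) (ZMod p)) * (sg u v - C u.1 * sg u r) = 0 := by
    rw [← h]; ring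
  exact (mul_eq_zero.1 h2).resolve_left (XpX_ne_zero 1)

/-- The expression `E`. -/
noncomputable def EE (r v : MvPolynomial (Fin 2) (ZMod p)) : MvPolynomial (Fin 2) (ZMod p) :=
  r * (v * pderiv 0 v - r * pderiv 1 v) - v * (v * pderiv 0 r - r * pderiv 1 r)

lemma lf_dvd_EE (u : ZMod p × ZMod p) (r v : MvPolynomial (Fin 2) (ZMod p))
    (h : Lf u ∣ v - C u.1 * r) : Lf u ∣ EE r v := by
  obtain ⟨ψ, hψ⟩ := h
  have hv : v = C u.1 * r + Lf u * ψ := by rw [← hψ]; ring
  have h0 : pderiv 0 (Lf u) = 1 := by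
    simp [Lf]
  have h1 : pderiv 1 (Lf u) = C u.1 := by
    simp [Lf]
  have e0 : pderiv 0 v = C u.1 * pderiv 0 r + (ψ + Lf u * pderiv 0 ψ) := by
    rw [hv, map_add, pderiv_C_mul, pderiv_mul, h0, one_mul]
  have e1 : pderiv 1 v = C u.1 * pderiv 1 r + (C u.1 * ψ + Lf u * pderiv 1 ψ) := by
    rw [hv, map_add, pderiv_C_mul, pderiv_mul, h1]
  refine ⟨r * ψ ^ 2 + r * (v * pderiv 0 ψ - r * pderiv 1 ψ) -
    ψ * (v * pderiv 0 r - r * pderiv 1 r), ?_⟩
  rw [EE, e0, e1]
  have hv2 : Lf u * ψ = v - C u.1 * r := hψ.symm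
  linear_combination (r * ψ - (v * pderiv 0 r - r * pderiv 1 r)) * hψ

lemma totalDegree_EE (r v : MvPolynomial (Fin 2) (ZMod p)) (α : ℕ) (hr : r.totalDegree ≤ α)
    (hv : v.totalDegree ≤ α) (hα : 1 ≤ α) : (EE r v).totalDegree ≤ 3 * α - 1 := by
  have key : ∀ f : MvPolynomial (Fin 2) (ZMod p), f.totalDegree ≤ α →
      (v * pderiv 0 f - r * pderiv 1 f).totalDegree ≤ 2 * α - 1 := by
    intro f hf
    refine (totalDegree_sub _ _).trans (max_le ?_ ?_)
    · have h1 := totalDegree_mul v (pderiv 0 f)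
      have h2 := totalDegree_pderiv_le 0 f
      omega
    · have h1 := totalDegree_mul r (pderiv 1 f)
      have h2 := totalDegree_pderiv_le 1 f
      omega
  rw [EE]
  refine (totalDegree_sub _ _).trans (max_le ?_ ?_)
  · have h1 := totalDegree_mul r (v * pderiv 0 v - r * pderiv 1 v)
    have h2 := key v hv
    omega
  · have h1 := totalDegree_mul v (v * pderiv 0 r - r * pderiv 1 r)
    have h2 := key r hr
    omega

/-- The solutions of `EE = 0` of small degree. -/
lemma EE_zero (r v : MvPolynomial (Fin 2) (ZMod p)) (hr0 : r ≠ 0) (hr : r.totalDegree < p)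
    (hv : v.totalDegree < p) (hE : EE r v = 0) :
    ∃ g : MvPolynomial (Fin 2) (ZMod p), ∃ k1 k2 k3 : ZMod p, (k1 ≠ 0 ∨ k2 ≠ 0) ∧ g ≠ 0 ∧
      g ∣ r ∧ r = g * (C k2 - C k1 * X 1) ∧ v = g * (C k1 * X 0 + C k3) := by
  obtain ⟨r1, v1, g, hrel, hgr, hgv⟩ := UniqueFactorizationMonoid.exists_reduced_factors r hr0 v
  have hg0 : g ≠ 0 := by
    rintro rfl
    rw [zero_mul] at hgr
    exact hr0 hgr.symm
  have hr10 : r1 ≠ 0 := by
    rintro rfl
    rw [mul_zero] at hgr
    exact hr0 hgr.symm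
  have hEE1 : EE r1 v1 = 0 := by
    have : EE r v = g ^ 3 * EE r1 v1 := by
      rw [← hgr, ← hgv, EE, EE]
      simp only [pderiv_mul]
      ring
    rw [this] at hE
    exact (mul_eq_zero.1 hE).resolve_left (pow_ne_zero 3 hg0)
  have hEx : r1 * (v1 * pderiv 0 v1 - r1 * pderiv 1 v1) -
      v1 * (v1 * pderiv 0 r1 - r1 * pderiv 1 r1) = 0 := hEE1
  have hr1d : r1.totalDegree < p := by
    have := totalDegree_le_of_dvd_of_isDomain (Dvd.intro_left g hgr) hr0
    omega
  -- r1 divides its own X-derivative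
  have hr1X : pderiv 0 r1 = 0 := by
    apply pderiv_eq_zero_of_dvd
    have h1 : r1 ∣ v1 * (v1 * pderiv 0 r1) :=
      ⟨v1 * pderiv 0 v1 - r1 * pderiv 1 v1 + v1 * pderiv 1 r1, by linear_combination -hEx⟩
    exact hrel.dvd_of_dvd_mul_left (hrel.dvd_of_dvd_mul_left h1)
  have hv1Y : pderiv 1 v1 = 0 := by
    apply pderiv_eq_zero_of_dvd
    have h1 : v1 ∣ r1 * (r1 * pderiv 1 v1) :=
      ⟨r1 * pderiv 0 v1 - v1 * pderiv 0 r1 + r1 * pderiv 1 r1, by linear_combination -hEx⟩
    exact hrel.symm.dvd_of_dvd_mul_left (hrel.symm.dvd_of_dvd_mul_left h1)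
  rw [hr1X, hv1Y] at hEx
  by_cases hv10 : v1 = 0
  · -- `v1 = 0`
    subst hv10
    have hu : IsUnit r1 := isRelPrime_zero_right.1 hrel
    have hconst : r1 = C (coeff 0 r1) := by
      rw [← totalDegree_eq_zero_iff_eq_C]
      have h1 := totalDegree_le_of_dvd_of_isDomain (isUnit_iff_dvd_one.1 hu) one_ne_zero
      simpa using h1
    refine ⟨g, 0, coeff 0 r1, 0, Or.inr ?_, hg0, ⟨r1, hgr.symm⟩, ?_, ?_⟩
    · intro h0
      rw [h0, C_0] at hconst
      exact hr10 hconst
    · rw [C_0, zero_mul, sub_zero, ← hconst, hgr]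
    · rw [← hgv]; simp
  · have hsum : pderiv 0 v1 + pderiv 1 r1 = 0 := by
      have h1 : r1 * v1 * (pderiv 0 v1 + pderiv 1 r1) = 0 := by linear_combination hEx
      exact (mul_eq_zero.1 h1).resolve_left (mul_ne_zero hr10 hv10)
    have hv0 : v ≠ 0 := by rw [← hgv]; exact mul_ne_zero hg0 hv10
    have hv1d : v1.totalDegree < p := by
      have := totalDegree_le_of_dvd_of_isDomain (Dvd.intro_left g hgv) hv0
      omega
    have hcomm : ∀ f : MvPolynomial (Fin 2) (ZMod p),
        pderiv 0 (pderiv 1 f) = pderiv 1 (pderiv 0 f) := by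
      intro f
      ext m
      rw [coeff_pderiv, coeff_pderiv, coeff_pderiv, coeff_pderiv]
      have : m + Finsupp.single 0 1 + Finsupp.single 1 1 =
        m + Finsupp.single 1 1 + Finsupp.single 0 1 := by abel
      rw [this]
      simp
      ring
    have hk := const_of_pderiv (f := pderiv 0 v1) (by
      have := totalDegree_pderiv_le 0 v1
      omega) (by
        have h1 : pderiv 0 v1 = - pderiv 1 r1 := by linear_combination hsum
        rw [h1, map_neg, hcomm, hr1X, map_zero, neg_zero])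
      (by rw [← hcomm, hv1Y, map_zero])
    set k := coeff 0 (pderiv 0 v1) with hkdef
    have hp1 : 1 < p := (Fact.out : p.Prime).one_lt
    have hCX : ∀ i : Fin 2, (C k * X i : MvPolynomial (Fin 2) (ZMod p)).totalDegree < p := by
      intro i
      have h1 := totalDegree_mul (C k : MvPolynomial (Fin 2) (ZMod p)) (X i)
      rw [totalDegree_C, totalDegree_X] at h1
      omega
    have hv1k := const_of_pderiv (f := v1 - C k * X 0)
      ((totalDegree_sub _ _).trans_lt (max_lt hv1d (hCX 0))) (by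
        rw [map_sub, pderiv_C_mul, pderiv_X_self, hk]; simp)
      (by
        rw [map_sub, pderiv_C_mul, pderiv_X_of_ne (by decide), hv1Y]; simp)
    have hr1k := const_of_pderiv (f := r1 + C k * X 1)
      ((totalDegree_add _ _).trans_lt (max_lt hr1d (hCX 1))) (by
        rw [map_add, pderiv_C_mul, pderiv_X_of_ne (by decide), hr1X]; simp)
      (by
        rw [map_add, pderiv_C_mul, pderiv_X_self, ← hk, mul_one]
        linear_combination hsum)
    refine ⟨g, k, coeff 0 (r1 + C k * X 1), coeff 0 (v1 - C k * X 0), ?_, hg0,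
      ⟨r1, hgr.symm⟩, ?_, ?_⟩
    · by_contra hcon
      push Not at hcon
      rw [hcon.2, hcon.1] at hr1k
      simp at hr1k
      exact hr10 hr1k
    · rw [← hr1k, ← hgr]; ring
    · rw [← hv1k, ← hgv]; ring

end Pool.Agent.K6.H93.Aff
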