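import Pool.Agent.K6.H93.AffPlane

/-!
# Counting part of the plane theorem
-/

namespace Pool.Agent.K6.H93.Aff

open MvPolynomial

variable {p : ℕ} [Fact p.Prime]

/-- Collinearity of three points of the affine plane. -/
def Col (u w z : ZMod p × ZMod p) : Prop :=
  (w.1 - u.1) * (z.2 - u.2) = (w.2 - u.2) * (z.1 - u.1)

instance (u w z : ZMod p × ZMod p) : Decidable (Col u w z) := by
  unfold Col; infer_instance

lemma eval_lf (u : ZMod p × ZMod p) (x : Fin 2 → ZMod p) :
    eval x (Lf u) = x 0 + u.1 * x 1 - u.2 := by
  simp [Lf]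

theorem card_M (U : Finset (ZMod p × ZMod p)) (hU : U.card = p)
    (h9 : ∀ u ∈ U, ∀ w ∈ U, u ≠ w → 9 ≤ (U.filter (fun z => Col u w z)).card)
    (M : Finset (Fin 2 → ZMod p))
    (hM : ∀ x, x ∈ M ↔ eval x (∏ u ∈ U, Lf u) ≠ 0) : 9 * M.card ≤ p * p - p := by
  classical
  let N : (Fin 2 → ZMod p) → Finset (ZMod p × ZMod p) :=
    fun x => U.filter (fun u => x 0 + u.1 * x 1 - u.2 = 0)
  have hmemN : ∀ x u, u ∈ N x ↔ u ∈ U ∧ x 0 + u.1 * x 1 - u.2 = 0 := by
    intro x u
    simp [N]
  have hM2 : M = Finset.univ.filter (fun x => (N x).card = 0) := by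
    ext x
    rw [hM, Finset.mem_filter, Finset.card_eq_zero, map_prod, Finset.prod_ne_zero_iff]
    simp only [Finset.mem_univ, true_and, Finset.eq_empty_iff_forall_notMem, hmemN, eval_lf]
    constructor
    · intro h u hu
      exact h u hu.1 hu.2
    · intro h u hu h0
      exact h u ⟨hu, h0⟩
  -- first moment
  have hsum1 : p * p ≤ ∑ x, (N x).card := by
    have h1 : ∑ x, (N x).card =
        ∑ u ∈ U, (Finset.univ.filter (fun x : Fin 2 → ZMod p =>
          x 0 + u.1 * x 1 - u.2 = 0)).card := by
      simp only [N, Finset.card_filter]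
      rw [Finset.sum_comm]
    rw [h1]
    calc p * p = ∑ u ∈ U, p := by rw [Finset.sum_const, hU, smul_eq_mul]
      _ ≤ _ := by
        apply Finset.sum_le_sum
        intro u _
        have h2 : (Finset.univ : Finset (ZMod p)).card ≤
            (Finset.univ.filter (fun x : Fin 2 → ZMod p => x 0 + u.1 * x 1 - u.2 = 0)).card := by
          apply Finset.card_le_card_of_injOn (fun t : ZMod p => ![u.2 - u.1 * t, t])
          · intro t _
            simp
          · intro t _ t' _ htt
            have := congrFun htt 1
            simpa using this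
        rwa [Finset.card_univ, ZMod.card] at h2
  -- second moment
  have hsum2 : ∑ x, ((N x).card * (N x).card - (N x).card) ≤ p * p - p := by
    have h1 : ∀ x, (N x).card * (N x).card - (N x).card =
        (U.offDiag.filter (fun q => q.1 ∈ N x ∧ q.2 ∈ N x)).card := by
      intro x
      rw [← Finset.offDiag_card]
      congr 1
      ext q
      rw [Finset.mem_filter, Finset.mem_offDiag, Finset.mem_offDiag]
      constructor
      · rintro ⟨h1, h2, h3⟩
        exact ⟨⟨((hmemN _ _).1 h1).1, ((hmemN _ _).1 h2).1, h3⟩, h1, h2⟩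
      · rintro ⟨⟨_, _, h3⟩, h4, h5⟩
        exact ⟨h4, h5, h3⟩
    simp only [h1, Finset.card_filter]
    rw [Finset.sum_comm]
    calc _ ≤ ∑ q ∈ U.offDiag, 1 := by
          apply Finset.sum_le_sum
          intro q hq
          rw [← Finset.card_filter, Finset.card_le_one]
          intro x hx y hy
          rw [Finset.mem_filter] at hx hy
          obtain ⟨_, hx1, hx2⟩ := hx
          obtain ⟨_, hy1, hy2⟩ := hy
          rw [hmemN] at hx1 hx2 hy1 hy2
          rw [Finset.mem_offDiag] at hq
          have e1 : (q.1.1 - q.2.1) * (x 1 - y 1) = 0 := by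
            linear_combination hx1.2 - hx2.2 - hy1.2 + hy2.2
          have e2 : x 1 = y 1 := by
            rcases mul_eq_zero.1 e1 with h | h
            · exfalso
              apply hq.2.2
              have h3 : q.1.1 = q.2.1 := sub_eq_zero.1 h
              apply Prod.ext h3
              have h4 := hx1.2
              have h5 := hx2.2
              rw [h3] at h4
              linear_combination h5 - h4
            · exact sub_eq_zero.1 h
          have e3 : x 0 = y 0 := by
            have h4 := hx1.2
            have h5 := hy1.2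
            rw [e2] at h4
            linear_combination h4 - h5
          funext i
          fin_cases i
          · exact e3
          · exact e2
      _ = p * p - p := by
          rw [Finset.sum_const, Finset.offDiag_card, hU, smul_eq_mul, mul_one]
  -- pointwise inequality
  have hpt : ∀ x, 9 * (if (N x).card = 0 then 1 else 0) + 9 * (N x).card ≤
      ((N x).card * (N x).card - (N x).card) + 9 := by
    intro x
    by_cases h0 : (N x).card = 0
    · rw [h0]; simp
    rw [if_neg h0]
    by_cases h1 : (N x).card = 1
    · rw [h1]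
    have h2 : 1 < (N x).card := by omega
    rw [Finset.one_lt_card] at h2
    obtain ⟨u, hu, w, hw, huw⟩ := h2
    rw [hmemN] at hu hw
    have h3 := h9 u hu.1 w hw.1 huw
    have h4 : U.filter (fun z => Col u w z) ⊆ N x := by
      intro z hz
      rw [Finset.mem_filter] at hz
      rw [hmemN]
      refine ⟨hz.1, ?_⟩
      have h5 : (w.1 - u.1) * (z.2 - u.2) = (w.2 - u.2) * (z.1 - u.1) := hz.2
      have hu2 := hu.2
      have hw2 := hw.2
      have hne : w.1 - u.1 ≠ 0 := by
        intro h
        apply huw
        have h6 : u.1 = w.1 := (sub_eq_zero.1 h).symm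
        apply Prod.ext h6
        rw [h6] at hu2
        linear_combination hw2 - hu2
      have h7 : (w.1 - u.1) * (x 0 + z.1 * x 1 - z.2) = 0 := by
        have e1 : w.2 - u.2 = (w.1 - u.1) * x 1 := by linear_combination hu2 - hw2
        linear_combination (w.1 - u.1) * hu2 - h5 - (z.1 - u.1) * e1
      exact (mul_eq_zero.1 h7).resolve_left hne
    have h5 := Finset.card_le_card h4
    have h6 : 9 ≤ (N x).card := h3.trans h5
    obtain ⟨k, hk⟩ := Nat.exists_eq_add_of_le h6
    rw [hk]
    have : (9 + k) * (9 + k) - (9 + k) = (9 + k) * (8 + k) := by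
      rw [Nat.sub_eq_iff_eq_add (Nat.le_mul_self _)]
      ring
    rw [this]
    nlinarith [Nat.zero_le k]
  have htot := Finset.sum_le_sum (s := (Finset.univ : Finset (Fin 2 → ZMod p)))
    (fun x _ => hpt x)
  rw [Finset.sum_add_distrib, Finset.sum_add_distrib, ← Finset.mul_sum, ← Finset.mul_sum,
    ← Finset.card_filter, ← hM2, Finset.sum_const, Finset.card_univ, Fintype.card_fun,
    ZMod.card, Fintype.card_fin, smul_eq_mul] at htot
  have hpp : p ^ 2 = p * p := by ring
  rw [hpp] at htot
  have : 9 * (p * p) ≤ 9 * ∑ x, (N x).card := Nat.mul_le_mul_left 9 hsum1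
  omega

end Pool.Agent.K6.H93.Aff
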