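import Pool.Agent.K6.H93.AffAlg

/-!
# The plane theorem

A set `U` of `p` points of the affine plane over `ZMod p` such that every line joining two points
of `U` contains at least nine points of `U` is contained in a line.
-/

namespace Pool.Agent.K6.H93.Aff

open MvPolynomial

variable {p : ℕ} [Fact p.Prime]

theorem alg_part (U : Finset (ZMod p × ZMod p)) (hU : U.card = p)
    (m : MvPolynomial (Fin 2) (ZMod p)) (hm : m ≠ 0) (α : ℕ) (hα1 : 1 ≤ α)
    (hα : m.totalDegree ≤ α) (h3 : 3 * α ≤ p)
    (hv : ∀ x, eval x ((∏ u ∈ U, Lf u) * m) = 0) :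
    ∃ k1 k2 k3 : ZMod p, (k1 ≠ 0 ∨ k2 ≠ 0) ∧
      p ≤ (U.filter (fun u => k1 * u.2 - k2 * u.1 + k3 = 0)).card + α := by
  classical
  have hH : (∏ u ∈ U, Lf u) ≠ 0 := Finset.prod_ne_zero_iff.2 fun u _ => lf_ne_zero u
  obtain ⟨r, v, hr, hvd, hrep⟩ := vanish_rep _ hv α (by
    rw [totalDegree_mul_of_isDomain hH hm, totalDegree_prod_lf, hU]
    omega)
  have hdv : ∀ u ∈ U, Lf u ∣ v - C u.1 * r := by
    intro u hu
    apply sg_dvd
    rw [← hrep]
    exact Dvd.dvd.mul_right (Finset.dvd_prod_of_mem _ hu) _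
  have hEE : EE r v = 0 := by
    by_contra h0
    have h1 := card_le_of_dvd U (EE r v) h0 (fun u hu => lf_dvd_EE u r v (hdv u hu))
    have h2 := totalDegree_EE r v α hr hvd hα1
    omega
  have hr0 : r ≠ 0 := by
    rintro rfl
    have hv0 : v ≠ 0 := by
      rintro rfl
      rw [mul_zero, mul_zero, add_zero] at hrep
      exact mul_ne_zero hH hm hrep
    have h1 := card_le_of_dvd U v hv0 (fun u hu => by simpa using hdv u hu)
    omega
  obtain ⟨g, k1, k2, k3, hk, hg0, hgr, hr1, hv1⟩ := EE_zero r v hr0 (by omega) (by omega) hEE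
  refine ⟨k1, k2, k3, hk, ?_⟩
  have hA : (U.filter (fun u => Lf u ∣ g)).card ≤ α := by
    refine (card_le_of_dvd _ g hg0 (fun u hu => (Finset.mem_filter.1 hu).2)).trans ?_
    exact (totalDegree_le_of_dvd_of_isDomain hgr hr0).trans hr
  have hB : U.filter (fun u => ¬ Lf u ∣ g) ⊆
      U.filter (fun u => k1 * u.2 - k2 * u.1 + k3 = 0) := by
    intro u hu
    rw [Finset.mem_filter] at hu ⊢
    refine ⟨hu.1, ?_⟩
    have h1 := hdv u hu.1
    have h2 : v - C u.1 * r = g * (C k1 * X 0 + C k3 - C u.1 * (C k2 - C k1 * X 1)) := by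
      rw [hr1, hv1]; ring
    rw [h2] at h1
    have h4 := ((lf_prime u).dvd_or_dvd h1).resolve_left hu.2
    rw [lf_dvd_iff] at h4
    simp only [map_add, map_mul, map_sub, sg_X0, sg_X1, sg_C] at h4
    have h5 : (C (k1 * u.2 - k2 * u.1 + k3) : MvPolynomial (Fin 2) (ZMod p)) = 0 := by
      rw [← h4]
      simp only [C_add, C_sub, C_mul]
      ring
    exact (C_eq_zero).1 h5
  have hsplit := Finset.card_filter_add_card_filter_not (s := U) (fun u => Lf u ∣ g)
  have hle := Finset.card_le_card hB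
  omega

/-- Index set for monomials of degree at most `α`. -/
def Idx (α : ℕ) : Finset (Σ _ : ℕ, ℕ) := (Finset.range (α + 1)).sigma fun n => Finset.range (n + 1)

lemma card_Idx (α : ℕ) : 2 * (Idx α).card = (α + 1) * (α + 2) := by
  rw [Idx, Finset.card_sigma]
  simp only [Finset.card_range]
  induction α with
  | zero => simp
  | succ n ih =>
    rw [Finset.sum_range_succ, mul_add, ih]
    ring

/-- The monomial attached to an index. -/
noncomputable def mono (i : Σ _ : ℕ, ℕ) : Fin 2 →₀ ℕ :=
  Finsupp.single 0 i.2 + Finsupp.single 1 (i.1 - i.2)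

lemma mono_inj {α : ℕ} {i j : Σ _ : ℕ, ℕ} (hi : i ∈ Idx α) (hj : j ∈ Idx α)
    (h : mono i = mono j) : i = j := by
  obtain ⟨n, a⟩ := i
  obtain ⟨k, b⟩ := j
  rw [Idx, Finset.mem_sigma, Finset.mem_range, Finset.mem_range] at hi hj
  have h0 := DFunLike.congr_fun h 0
  have h1 := DFunLike.congr_fun h 1
  simp [mono] at h0 h1 hi hj
  have : n = k := by omega
  subst this
  rw [h0]

/-- The polynomial with given coefficients. -/
noncomputable def mkP {α : ℕ} (c : Idx α → ZMod p) : MvPolynomial (Fin 2) (ZMod p) :=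
  ∑ i : Idx α, monomial (mono i) (c i)

lemma coeff_mkP {α : ℕ} (c : Idx α → ZMod p) (j : Idx α) : coeff (mono j) (mkP c) = c j := by
  classical
  rw [mkP, coeff_sum, Finset.sum_eq_single j]
  · rw [coeff_monomial, if_pos rfl]
  · intro i _ hij
    rw [coeff_monomial, if_neg]
    intro h
    exact hij (Subtype.ext (mono_inj i.2 j.2 h))
  · intro h
    exact absurd (Finset.mem_univ _) h

lemma totalDegree_mono {α : ℕ} (i : Idx α) (c : ZMod p) :
    (monomial (mono i) c : MvPolynomial (Fin 2) (ZMod p)).totalDegree ≤ α := by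
  refine (totalDegree_monomial_le _ _).trans ?_
  obtain ⟨⟨n, a⟩, hi⟩ := i
  rw [Idx, Finset.mem_sigma, Finset.mem_range, Finset.mem_range] at hi
  simp only [mono]
  rw [Finsupp.sum_fintype _ _ (by simp), Fin.sum_univ_two]
  simp at hi ⊢
  omega

lemma totalDegree_mkP {α : ℕ} (c : Idx α → ZMod p) : (mkP c).totalDegree ≤ α := by
  rw [mkP]
  refine (totalDegree_finsetSum _ _).trans ?_
  rw [Finset.sup_le_iff]
  intro i _
  exact totalDegree_mono i _

lemma eval_mkP {α : ℕ} (c : Idx α → ZMod p) (x : Fin 2 → ZMod p) :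
    eval x (mkP c) = ∑ i : Idx α, eval x (monomial (mono i) 1) * c i := by
  rw [mkP, map_sum]
  refine Finset.sum_congr rfl fun i _ => ?_
  rw [eval_monomial, eval_monomial]
  ring

theorem exists_m (hp : 7 ≤ p) (H : MvPolynomial (Fin 2) (ZMod p)) (hH : H.totalDegree ≤ p)
    (α : ℕ) (h3 : 3 * α ≤ p) (M : Finset (Fin 2 → ZMod p))
    (hM : ∀ x, x ∈ M ↔ eval x H ≠ 0) (hcard : M.card < (α + 1) * (α + 2)) :
    ∃ m : MvPolynomial (Fin 2) (ZMod p), m ≠ 0 ∧ m.totalDegree ≤ α ∧
      ∀ x ∈ M, eval x m = 0 := by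
  classical
  by_contra hcon
  push Not at hcon
  have hinj : ∀ c : Idx α → ZMod p, (∀ x ∈ M, eval x (mkP c) = 0) → c = 0 := by
    intro c hc
    by_contra hc0
    have hne : mkP c ≠ 0 := by
      intro h
      apply hc0
      funext i
      rw [← coeff_mkP c i, h]
      simp
    obtain ⟨x, hx, hx2⟩ := hcon (mkP c) hne (totalDegree_mkP c)
    exact hx2 (hc x hx)
  let A : Matrix M (Idx α) (ZMod p) := fun x i => eval x.1 (monomial (mono i) 1)
  let B : Matrix (Idx α) M (ZMod p) := fun i x => eval x.1 H * eval x.1 (monomial (mono i) 1)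
  have hBA : B * A = 0 := by
    ext i j
    rw [Matrix.mul_apply]
    have h1 : ∀ x : M, B i x * A x j =
        eval x.1 (H * (monomial (mono i) 1 * monomial (mono j) 1)) := by
      intro x
      simp only [A, B, map_mul]
      ring
    simp only [h1]
    have h2 : ∑ x : M, eval x.1 (H * (monomial (mono i) 1 * monomial (mono j) 1)) =
        ∑ x : Fin 2 → ZMod p, eval x (H * (monomial (mono i) 1 * monomial (mono j) 1)) := by
      rw [Finset.sum_coe_sort M
        (fun x => eval x (H * (monomial (mono i.1) 1 * monomial (mono j.1) 1)))]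
      apply Finset.sum_subset (Finset.subset_univ _)
      intro x _ hx
      rw [hM, not_not] at hx
      rw [map_mul, hx, zero_mul]
    rw [h2, sum_eval_eq_zero]
    · rfl
    · have h5 := totalDegree_mul H
        (monomial (mono i) 1 * monomial (mono j) 1 : MvPolynomial (Fin 2) (ZMod p))
      have h6 := totalDegree_mul (monomial (mono i) 1 : MvPolynomial (Fin 2) (ZMod p))
        (monomial (mono j) 1)
      have h7 := totalDegree_mono (p := p) i 1
      have h8 := totalDegree_mono (p := p) j 1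
      rw [ZMod.card, Fintype.card_fin]
      omega
  have hAr : A.rank = Fintype.card (Idx α) := by
    rw [Matrix.rank, LinearMap.finrank_range_of_inj, Module.finrank_fintype_fun_eq_card]
    rw [← LinearMap.ker_eq_bot, LinearMap.ker_eq_bot']
    intro c hc
    apply hinj
    intro x hx
    have h1 := congrFun hc ⟨x, hx⟩
    rw [eval_mkP]
    exact h1
  have hBr : B.rank = Fintype.card (Idx α) := by
    rw [← Matrix.rank_transpose, Matrix.rank, LinearMap.finrank_range_of_inj,
      Module.finrank_fintype_fun_eq_card]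
    rw [← LinearMap.ker_eq_bot, LinearMap.ker_eq_bot']
    intro c hc
    apply hinj
    intro x hx
    have h1 := congrFun hc ⟨x, hx⟩
    rw [eval_mkP]
    have h2 : (B.transpose.mulVecLin c) ⟨x, hx⟩ =
        eval x H * ∑ i : Idx α, eval x (monomial (mono i) 1) * c i := by
      rw [Matrix.mulVecLin_apply, Matrix.mulVec, dotProduct, Finset.mul_sum]
      refine Finset.sum_congr rfl fun i _ => ?_
      rw [Matrix.transpose_apply]
      simp only [B]
      ring
    rw [h2] at h1
    exact (mul_eq_zero.1 h1).resolve_left ((hM x).1 hx)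
  have hrk := Matrix.rank_add_rank_le_card_of_mul_eq_zero hBA
  rw [hAr, hBr, Fintype.card_coe, Fintype.card_coe] at hrk
  have := card_Idx α
  omega

end Pool.Agent.K6.H93.Aff
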