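import Pool.Agent.K6.H93.AffCount

/-!
# The plane theorem, final form
-/

namespace Pool.Agent.K6.H93.Aff

open MvPolynomial

variable {p : ℕ} [Fact p.Prime]

lemma col_line {k1 k2 k3 : ZMod p} {u w z : ZMod p × ZMod p}
    (hw : k1 * w.2 - k2 * w.1 + k3 = 0) (hz : k1 * z.2 - k2 * z.1 + k3 = 0) (hwz : w ≠ z)
    (h : Col u w z) : k1 * u.2 - k2 * u.1 + k3 = 0 := by
  have h5 : (w.1 - u.1) * (z.2 - u.2) = (w.2 - u.2) * (z.1 - u.1) := h
  have e1 : k1 * (z.2 - w.2) = k2 * (z.1 - w.1) := by linear_combination hz - hw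
  have e2 : (w.1 - u.1) * (z.2 - w.2) = (w.2 - u.2) * (z.1 - w.1) := by linear_combination h5
  have f1 : (k1 * u.2 - k2 * u.1 + k3) * (z.1 - w.1) = 0 := by
    linear_combination (z.1 - w.1) * hw + k1 * e2 - (w.1 - u.1) * e1
  have f2 : (k1 * u.2 - k2 * u.1 + k3) * (z.2 - w.2) = 0 := by
    linear_combination (z.2 - w.2) * hw + k2 * e2 - (w.2 - u.2) * e1
  by_contra hne
  have g1 := (mul_eq_zero.1 f1).resolve_left hne
  have g2 := (mul_eq_zero.1 f2).resolve_left hne
  apply hwz
  apply Prod.ext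
  · exact (sub_eq_zero.1 g1).symm
  · exact (sub_eq_zero.1 g2).symm

lemma col_trans {u w w' z : ZMod p × ZMod p} (h1 : Col u w z) (h2 : Col u w' z) (hzu : z ≠ u) :
    Col u w w' := by
  have e1 : (w.1 - u.1) * (z.2 - u.2) = (w.2 - u.2) * (z.1 - u.1) := h1
  have e2 : (w'.1 - u.1) * (z.2 - u.2) = (w'.2 - u.2) * (z.1 - u.1) := h2
  show (w.1 - u.1) * (w'.2 - u.2) = (w.2 - u.2) * (w'.1 - u.1)
  have f1 : ((w.1 - u.1) * (w'.2 - u.2) - (w.2 - u.2) * (w'.1 - u.1)) * (z.1 - u.1) = 0 := by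
    linear_combination -(w.1 - u.1) * e2 + (w'.1 - u.1) * e1
  have f2 : ((w.1 - u.1) * (w'.2 - u.2) - (w.2 - u.2) * (w'.1 - u.1)) * (z.2 - u.2) = 0 := by
    linear_combination (w'.2 - u.2) * e1 - (w.2 - u.2) * e2
  by_contra hne
  have hne' := sub_ne_zero.2 hne
  have g1 := (mul_eq_zero.1 f1).resolve_left hne'
  have g2 := (mul_eq_zero.1 f2).resolve_left hne'
  exact hzu (Prod.ext (sub_eq_zero.1 g1) (sub_eq_zero.1 g2))

theorem plane (hp : 7 ≤ p) (U : Finset (ZMod p × ZMod p)) (hU : U.card = p)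
    (h9 : ∀ u ∈ U, ∀ w ∈ U, u ≠ w → 9 ≤ (U.filter (fun z => Col u w z)).card) :
    ∀ u ∈ U, ∀ w ∈ U, ∀ z ∈ U, Col u w z := by
  classical
  set α := p / 3 with hα
  have hα1 : 1 ≤ α := by omega
  have h3 : 3 * α ≤ p := by omega
  have h3' : p ≤ 3 * α + 2 := by omega
  set H : MvPolynomial (Fin 2) (ZMod p) := ∏ u ∈ U, Lf u with hH
  set M : Finset (Fin 2 → ZMod p) := Finset.univ.filter (fun x => eval x H ≠ 0) with hM
  have hMm : ∀ x, x ∈ M ↔ eval x H ≠ 0 := by
    intro x
    simp [hM]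
  have hc := card_M U hU h9 M hMm
  have hcard : M.card < (α + 1) * (α + 2) := by
    have h1 : (p + 1) * (p + 4) ≤ (3 * α + 3) * (3 * α + 6) :=
      Nat.mul_le_mul (by omega) (by omega)
    have h2 : p * p - p ≤ p * p := Nat.sub_le _ _
    nlinarith
  obtain ⟨m, hm0, hmd, hmM⟩ := exists_m hp H (by rw [hH, totalDegree_prod_lf, hU]) α h3 M hMm hcard
  obtain ⟨k1, k2, k3, hk, hcount⟩ := alg_part U hU m hm0 α hα1 hmd h3 (by
    intro x
    rw [map_mul]
    by_cases hx : x ∈ M
    · rw [hmM x hx, mul_zero]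
    · rw [hMm, not_not] at hx
      rw [← hH, hx, zero_mul])
  set L := U.filter (fun u => k1 * u.2 - k2 * u.1 + k3 = 0) with hL
  have hall : ∀ u ∈ U, k1 * u.2 - k2 * u.1 + k3 = 0 := by
    intro u hu
    by_contra hul
    -- for each `w` in `L` choose another point of `U` on the line `u w`
    have hex : ∀ w ∈ L, ∃ z ∈ U, z ≠ u ∧ z ≠ w ∧ Col u w z := by
      intro w hw
      have hwU := (Finset.mem_filter.1 hw).1
      have huw : u ≠ w := by
        rintro rfl
        exact hul (Finset.mem_filter.1 hw).2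
      have h1 := h9 u hu w hwU huw
      have h2 : 0 < ((U.filter (fun z => Col u w z)) \ {u, w}).card := by
        have h3 := Finset.le_card_sdiff {u, w} (U.filter (fun z => Col u w z))
        have h4 : ({u, w} : Finset (ZMod p × ZMod p)).card ≤ 2 := Finset.card_le_two
        omega
      obtain ⟨z, hz⟩ := Finset.card_pos.1 h2
      rw [Finset.mem_sdiff, Finset.mem_filter, Finset.mem_insert, Finset.mem_singleton,
        not_or] at hz
      exact ⟨z, hz.1.1, hz.2.1, hz.2.2, hz.1.2⟩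
    choose! f hf1 hf2 hf3 hf4 using hex
    have hle : L.card ≤ ((U \ L).erase u).card := by
      apply Finset.card_le_card_of_injOn f
      · intro w hw
        rw [Finset.mem_coe] at hw ⊢
        rw [Finset.mem_erase, Finset.mem_sdiff]
        refine ⟨hf2 w hw, hf1 w hw, ?_⟩
        intro hzL
        apply hul
        exact col_line (Finset.mem_filter.1 hw).2 (Finset.mem_filter.1 hzL).2
          (hf3 w hw).symm (hf4 w hw)
      · intro w hw w' hw' hww
        rw [Finset.mem_coe] at hw hw'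
        by_contra hne
        apply hul
        have h1 := hf4 w hw
        have h2 := hf4 w' hw'
        rw [← hww] at h2
        exact col_line (Finset.mem_filter.1 hw).2 (Finset.mem_filter.1 hw').2 hne
          (col_trans h1 h2 (hf2 w hw))
    have hu2 : u ∈ U \ L := by
      rw [Finset.mem_sdiff]
      exact ⟨hu, fun h => hul (Finset.mem_filter.1 h).2⟩
    have hLU : L ⊆ U := Finset.filter_subset _ _
    rw [Finset.card_erase_of_mem hu2, Finset.card_sdiff_of_subset hLU, hU] at hle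
    omega
  intro u hu w hw z hz
  have a1 := hall u hu
  have a2 := hall w hw
  have a3 := hall z hz
  show (w.1 - u.1) * (z.2 - u.2) = (w.2 - u.2) * (z.1 - u.1)
  have e1 : k1 * (w.2 - u.2) = k2 * (w.1 - u.1) := by linear_combination a2 - a1
  have e2 : k1 * (z.2 - u.2) = k2 * (z.1 - u.1) := by linear_combination a3 - a1
  rcases hk with hk | hk
  · apply mul_left_cancel₀ hk
    linear_combination (w.1 - u.1) * e2 - (z.1 - u.1) * e1
  · apply mul_left_cancel₀ hk
    linear_combination (w.2 - u.2) * e2 - (z.2 - u.2) * e1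

end Pool.Agent.K6.H93.Aff
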