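import Mathlib

/-!
# Polynomial tools in two variables over `ZMod p`

The linear polynomials `Lf u = X + a Y - b`, their divisibility, and degrees of partial derivatives.
-/

namespace Pool.Agent.K6.H93.Aff

open MvPolynomial

variable {p : ℕ} [Fact p.Prime]

/-- The linear polynomial `X + a Y - b` attached to the point `u = (a, b)`. -/
noncomputable def Lf (u : ZMod p × ZMod p) : MvPolynomial (Fin 2) (ZMod p) :=
  X 0 + C u.1 * X 1 - C u.2

/-- The substitution `X ↦ b - a Y`, `Y ↦ Y`. -/
noncomputable def sg (u : ZMod p × ZMod p) :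
    MvPolynomial (Fin 2) (ZMod p) →ₐ[ZMod p] MvPolynomial (Fin 2) (ZMod p) :=
  aeval ![C u.2 - C u.1 * X 1, X 1]

@[simp] lemma sg_X0 (u : ZMod p × ZMod p) : sg u (X 0) = C u.2 - C u.1 * X 1 := by
  simp [sg]

@[simp] lemma sg_X1 (u : ZMod p × ZMod p) : sg u (X 1) = X 1 := by
  simp [sg]

@[simp] lemma sg_C (u : ZMod p × ZMod p) (c : ZMod p) : sg u (C c) = C c := by
  simp [sg]

lemma sg_Lf (u w : ZMod p × ZMod p) :
    sg u (Lf w) = C (w.1 - u.1) * X 1 + C (u.2 - w.2) := by
  simp only [Lf, map_sub, map_add, map_mul, sg_X0, sg_X1, sg_C]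
  ring

lemma sg_Lf_self (u : ZMod p × ZMod p) : sg u (Lf u) = 0 := by
  rw [sg_Lf]; simp

lemma lf_dvd_iff (u : ZMod p × ZMod p) (f : MvPolynomial (Fin 2) (ZMod p)) :
    Lf u ∣ f ↔ sg u f = 0 := by
  constructor
  · rintro ⟨g, rfl⟩
    rw [map_mul, sg_Lf_self, zero_mul]
  · intro h
    have key : ((Ideal.Quotient.mkₐ (ZMod p) (Ideal.span {Lf u})).comp (sg u)) =
        Ideal.Quotient.mkₐ (ZMod p) (Ideal.span {Lf u}) := by
      apply MvPolynomial.algHom_ext
      intro i
      fin_cases i
      · simp only [Fin.zero_eta, AlgHom.comp_apply, sg_X0]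
        rw [Ideal.Quotient.mkₐ_eq_mk, Ideal.Quotient.eq, Ideal.mem_span_singleton]
        exact ⟨-1, by rw [Lf]; ring⟩
      · simp
    have h2 := AlgHom.congr_fun key f
    rw [AlgHom.comp_apply, h, map_zero] at h2
    rw [Ideal.Quotient.mkₐ_eq_mk] at h2
    exact Ideal.mem_span_singleton.1 (Ideal.Quotient.eq_zero_iff_mem.1 h2.symm)

lemma coeff_lf (u : ZMod p × ZMod p) : coeff (Finsupp.single 0 1) (Lf u) = 1 := by
  have h1 : (Finsupp.single (1 : Fin 2) 1 : Fin 2 →₀ ℕ) ≠ Finsupp.single 0 1 := by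
    intro h
    have := DFunLike.congr_fun h 0
    simp at this
  have h2 : (0 : Fin 2 →₀ ℕ) ≠ Finsupp.single 0 1 := by
    intro h
    have := DFunLike.congr_fun h 0
    simp at this
  rw [Lf, coeff_sub, coeff_add, coeff_C_mul, coeff_X, coeff_X, coeff_C, if_neg h1, if_neg h2,
    if_pos rfl]
  simp

lemma lf_ne_zero (u : ZMod p × ZMod p) : Lf u ≠ 0 := by
  intro h
  have := coeff_lf u
  rw [h] at this
  simp at this

lemma totalDegree_lf (u : ZMod p × ZMod p) : (Lf u).totalDegree = 1 := by
  apply le_antisymm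
  · rw [Lf]
    refine (totalDegree_sub _ _).trans (max_le ((totalDegree_add _ _).trans (max_le ?_ ?_)) ?_)
    · simp
    · refine (totalDegree_mul _ _).trans ?_
      simp
    · simp
  · have h := le_totalDegree (p := Lf u) (s := Finsupp.single 0 1)
      (by rw [mem_support_iff, coeff_lf]; exact one_ne_zero)
    simpa using h

lemma lf_prime (u : ZMod p × ZMod p) : Prime (Lf u) := by
  refine ⟨lf_ne_zero u, ?_, ?_⟩
  · intro h
    have h1 := h.map (sg u)
    rw [sg_Lf_self] at h1
    exact not_isUnit_zero h1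
  · intro f g h
    rw [lf_dvd_iff, map_mul, mul_eq_zero] at h
    rw [lf_dvd_iff, lf_dvd_iff]
    exact h

lemma lf_dvd_lf {u w : ZMod p × ZMod p} (h : Lf u ∣ Lf w) : u = w := by
  rw [lf_dvd_iff, sg_Lf] at h
  have h1 : (0 : Fin 2 →₀ ℕ) ≠ Finsupp.single 1 1 := by
    intro h
    have := DFunLike.congr_fun h 1
    simp at this
  have e1 := congrArg (coeff (Finsupp.single 1 1)) h
  rw [coeff_add, coeff_C_mul, coeff_X, coeff_C, if_pos rfl, if_neg h1, coeff_zero] at e1
  have e0 := congrArg (coeff 0) h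
  rw [coeff_add, coeff_C_mul, coeff_X, coeff_C, if_neg h1.symm, if_pos rfl, coeff_zero] at e0
  apply Prod.ext
  · linear_combination -e1
  · linear_combination e0

lemma prod_lf_dvd (S : Finset (ZMod p × ZMod p)) (f : MvPolynomial (Fin 2) (ZMod p))
    (h : ∀ u ∈ S, Lf u ∣ f) : ∏ u ∈ S, Lf u ∣ f := by
  apply Finset.prod_dvd_of_isRelPrime _ h
  intro u _ w _ huw
  rw [Function.onFun, (lf_prime u).irreducible.isRelPrime_iff_not_dvd]
  intro h
  exact huw (lf_dvd_lf h)

lemma totalDegree_prod_lf (S : Finset (ZMod p × ZMod p)) :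
    (∏ u ∈ S, Lf u).totalDegree = S.card := by
  classical
  induction S using Finset.induction_on with
  | empty => simp
  | insert a S ha ih =>
    rw [Finset.prod_insert ha, totalDegree_mul_of_isDomain (lf_ne_zero a)
      (Finset.prod_ne_zero_iff.2 fun u _ => lf_ne_zero u), totalDegree_lf, ih,
      Finset.card_insert_of_notMem ha, add_comm]

lemma card_le_of_dvd (S : Finset (ZMod p × ZMod p)) (f : MvPolynomial (Fin 2) (ZMod p))
    (hf : f ≠ 0) (h : ∀ u ∈ S, Lf u ∣ f) : S.card ≤ f.totalDegree := by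
  rw [← totalDegree_prod_lf S]
  exact totalDegree_le_of_dvd_of_isDomain (prod_lf_dvd S f h) hf

lemma totalDegree_pderiv_le (i : Fin 2) (f : MvPolynomial (Fin 2) (ZMod p)) :
    (pderiv i f).totalDegree ≤ f.totalDegree - 1 := by
  rw [totalDegree, Finset.sup_le_iff]
  intro m hm
  rw [mem_support_iff, coeff_pderiv] at hm
  have h1 : coeff (m + Finsupp.single i 1) f ≠ 0 := left_ne_zero_of_mul hm
  have h2 := le_totalDegree (p := f) (s := m + Finsupp.single i 1) (mem_support_iff.2 h1)
  rw [Finsupp.sum_add_index' (by simp) (by simp), Finsupp.sum_single_index rfl] at h2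
  omega

lemma pderiv_eq_zero_of_dvd {i : Fin 2} {f : MvPolynomial (Fin 2) (ZMod p)}
    (h : f ∣ pderiv i f) : pderiv i f = 0 := by
  by_contra h0
  have h1 := totalDegree_le_of_dvd_of_isDomain h h0
  have h2 := totalDegree_pderiv_le i f
  have h3 : f.totalDegree = 0 := by omega
  rw [totalDegree_eq_zero_iff_eq_C] at h3
  rw [h3, pderiv_C] at h0
  exact h0 rfl

lemma const_of_pderiv {f : MvPolynomial (Fin 2) (ZMod p)} (hd : f.totalDegree < p)
    (h0 : pderiv 0 f = 0) (h1 : pderiv 1 f = 0) : f = C (coeff 0 f) := by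
  rw [← totalDegree_eq_zero_iff_eq_C]
  rw [← Nat.le_zero, totalDegree, Finset.sup_le_iff]
  intro m hm
  have hm0 := mem_support_iff.1 hm
  have hle := le_totalDegree hm
  have key : ∀ i : Fin 2, m i = 0 := by
    intro i
    by_contra hi
    have hpd : pderiv i f = 0 := by
      fin_cases i
      · exact h0
      · exact h1
    have h2 := congrArg (coeff (m - Finsupp.single i 1)) hpd
    rw [coeff_pderiv] at h2
    have h3 : m - Finsupp.single i 1 + Finsupp.single i 1 = m := by
      ext j
      simp only [Finsupp.coe_add, Finsupp.coe_tsub, Pi.add_apply, Pi.sub_apply]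
      by_cases hj : j = i
      · subst hj
        simp
        omega
      · simp [Finsupp.single_eq_of_ne hj]
    rw [h3, coeff_zero] at h2
    rcases mul_eq_zero.1 h2 with h4 | h4
    · exact hm0 h4
    · have h5 : ((m - Finsupp.single i 1 : Fin 2 →₀ ℕ) i) + 1 = m i := by
        simp
        omega
      have h6 : ((m i : ℕ) : ZMod p) = 0 := by
        rw [← h5]; push_cast; exact h4
      rw [ZMod.natCast_eq_zero_iff] at h6
      have h7 : m i ≤ f.totalDegree := by
        refine le_trans ?_ hle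
        rw [Finsupp.sum_fintype _ _ (by simp)]
        exact Finset.single_le_sum (f := fun j => m j) (fun j _ => Nat.zero_le _)
          (Finset.mem_univ i)
      have h8 := Nat.le_of_dvd (Nat.pos_of_ne_zero hi) h6
      omega
  rw [Finsupp.sum_fintype _ _ (by simp)]
  simp [key]

end Pool.Agent.K6.H93.Aff
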