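import Pool.Agent.K6.H93.AffPlane2

/-!
# From the plane to arbitrary dimension
-/

namespace Pool.Agent.K6.H93.Aff

variable {p : ℕ} [Fact p.Prime] {d : ℕ}

/-- The point `z` is on the line (or point) through `u` and `w`. -/
def OnL (u w z : Fin d → ZMod p) : Prop := ∃ t : ZMod p, z = u + t • (w - u)

lemma card_perp (w : Fin d → ZMod p) (hw : w ≠ 0) :
    p * (Finset.univ.filter (fun c : Fin d → ZMod p => c ⬝ᵥ w = 0)).card ≤
      Fintype.card (Fin d → ZMod p) := by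
  classical
  obtain ⟨i, hi⟩ : ∃ i, w i ≠ 0 := by
    by_contra h
    push Not at h
    exact hw (funext h)
  have h1 : ((Finset.univ.filter (fun c : Fin d → ZMod p => c ⬝ᵥ w = 0)) ×ˢ
      (Finset.univ : Finset (ZMod p))).card ≤ (Finset.univ : Finset (Fin d → ZMod p)).card := by
    apply Finset.card_le_card_of_injOn (fun q => q.1 + Pi.single i q.2)
    · intro q _
      simp
    · rintro ⟨c, t⟩ hc ⟨c', t'⟩ hc' heq
      rw [Finset.mem_coe, Finset.mem_product, Finset.mem_filter] at hc hc'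
      simp only [Finset.mem_univ, true_and, and_true] at hc hc'
      simp only at heq
      have h2 := congrArg (fun x => x ⬝ᵥ w) heq
      simp only [add_dotProduct, hc, hc', zero_add, single_dotProduct] at h2
      have h3 : t = t' := mul_right_cancel₀ hi h2
      subst h3
      have h4 : c = c' := add_right_cancel heq
      rw [h4]
  rw [Finset.card_product, Finset.card_univ, Finset.card_univ, ZMod.card] at h1
  rw [mul_comm]
  exact h1

lemma exists_perp_few (D : Finset (Fin d → ZMod p)) (hD : ∀ w ∈ D, w ≠ 0) :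
    ∃ c : Fin d → ZMod p, p * (D.filter (fun w => c ⬝ᵥ w = 0)).card ≤ D.card := by
  classical
  have h1 : ∑ c : Fin d → ZMod p, p * (D.filter (fun w => c ⬝ᵥ w = 0)).card ≤
      ∑ _c : Fin d → ZMod p, D.card := by
    rw [← Finset.mul_sum]
    simp only [Finset.card_filter]
    rw [Finset.sum_comm, Finset.mul_sum]
    simp only [← Finset.card_filter]
    calc _ ≤ ∑ w ∈ D, Fintype.card (Fin d → ZMod p) :=
          Finset.sum_le_sum fun w hw => card_perp w (hD w hw)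
      _ = _ := by
          rw [Finset.sum_const, Finset.sum_const, Finset.card_univ, smul_eq_mul, smul_eq_mul,
            mul_comm]
  obtain ⟨c, _, hc⟩ := Finset.exists_le_of_sum_le (s := (Finset.univ : Finset (Fin d → ZMod p)))
    Finset.univ_nonempty h1
  exact ⟨c, hc⟩

lemma exists_proj (D : Finset (Fin d → ZMod p)) (hD : ∀ w ∈ D, w ≠ 0)
    (hcard : D.card < p * p) :
    ∃ c e : Fin d → ZMod p, ∀ w ∈ D, ¬ (c ⬝ᵥ w = 0 ∧ e ⬝ᵥ w = 0) := by
  classical
  have hp : 0 < p := (Fact.out : p.Prime).pos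
  obtain ⟨c, hc⟩ := exists_perp_few D hD
  obtain ⟨e, he⟩ := exists_perp_few (D.filter (fun w => c ⬝ᵥ w = 0))
    (fun w hw => hD w (Finset.mem_filter.1 hw).1)
  refine ⟨c, e, fun w hw hcw => ?_⟩
  have h1 : (D.filter (fun w => c ⬝ᵥ w = 0)).card < p :=
    Nat.lt_of_mul_lt_mul_left (hc.trans_lt hcard)
  have h2 : 0 < ((D.filter (fun w => c ⬝ᵥ w = 0)).filter (fun w => e ⬝ᵥ w = 0)).card :=
    Finset.card_pos.2 ⟨w, by simp [hw, hcw.1, hcw.2]⟩
  have h3 : p * 1 ≤ p * ((D.filter (fun w => c ⬝ᵥ w = 0)).filter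
    (fun w => e ⬝ᵥ w = 0)).card := Nat.mul_le_mul_left p h2
  omega

lemma card_lt_pairs (n : ℕ) :
    2 * (Finset.univ.filter (fun q : Fin n × Fin n => q.1 < q.2)).card ≤ n * n - n := by
  classical
  have h1 : (Finset.univ.filter (fun q : Fin n × Fin n => q.1 < q.2)).card =
      (Finset.univ.filter (fun q : Fin n × Fin n => q.2 < q.1)).card := by
    apply Finset.card_bij (fun q _ => (q.2, q.1))
    · intro q hq
      simpa using hq
    · rintro ⟨a, b⟩ _ ⟨a', b'⟩ _ h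
      simp only [Prod.mk.injEq] at h
      rw [h.1, h.2]
    · rintro ⟨a, b⟩ h
      exact ⟨(b, a), by simpa using h, rfl⟩
  have h2 : (Finset.univ.filter (fun q : Fin n × Fin n => q.1 < q.2)) ∪
      (Finset.univ.filter (fun q : Fin n × Fin n => q.2 < q.1)) ⊆
      (Finset.univ : Finset (Fin n)).offDiag := by
    intro q hq
    rw [Finset.mem_union, Finset.mem_filter, Finset.mem_filter] at hq
    rw [Finset.mem_offDiag]
    refine ⟨Finset.mem_univ _, Finset.mem_univ _, ?_⟩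
    rcases hq with hq | hq
    · exact hq.2.ne
    · exact hq.2.ne'
  have h3 := Finset.card_le_card h2
  rw [Finset.card_union_of_disjoint, ← h1, Finset.offDiag_card, Finset.card_univ,
    Fintype.card_fin] at h3
  · omega
  · rw [Finset.disjoint_filter]
    intro q _ h4 h5
    exact absurd (h4.trans h5) (lt_irrefl _)

theorem space (hp : 7 ≤ p) (U : Finset (Fin d → ZMod p)) (hU : U.card = p)
    (h9 : ∀ u ∈ U, ∀ w ∈ U, u ≠ w → ∃ T ⊆ U, 9 ≤ T.card ∧ ∀ z ∈ T, OnL u w z) :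
    ∀ u ∈ U, ∀ w ∈ U, u ≠ w → ∀ z ∈ U, OnL u w z := by
  classical
  intro u0 hu0 u1 hu1 h01 u2 hu2
  by_contra hcon
  -- the vectors which must not be killed
  let eq := U.equivFinOfCardEq hU
  let D1 : Finset (Fin d → ZMod p) := (Finset.univ.filter
    (fun q : Fin p × Fin p => q.1 < q.2)).image
      (fun q => (eq.symm q.1 : Fin d → ZMod p) - (eq.symm q.2 : Fin d → ZMod p))
  let D2 : Finset (Fin d → ZMod p) := (Finset.univ : Finset (ZMod p)).image
      (fun t => (u2 - u0) - t • (u1 - u0))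
  have hD1 : ∀ w ∈ D1, w ≠ 0 := by
    intro w hw
    obtain ⟨q, hq, rfl⟩ := Finset.mem_image.1 hw
    rw [Finset.mem_filter] at hq
    rw [sub_ne_zero]
    intro h
    exact hq.2.ne (eq.symm.injective (Subtype.ext h))
  have hD2 : ∀ w ∈ D2, w ≠ 0 := by
    intro w hw
    obtain ⟨t, -, rfl⟩ := Finset.mem_image.1 hw
    intro h
    apply hcon
    refine ⟨t, ?_⟩
    have := sub_eq_zero.1 h
    rw [← this]
    abel
  have hcD : (D1 ∪ D2).card < p * p := by
    have h1 : D1.card ≤ _ := Finset.card_image_le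
    have h2 : D2.card ≤ _ := Finset.card_image_le
    have h3 := card_lt_pairs p
    have h4 := Finset.card_union_le D1 D2
    rw [Finset.card_univ, ZMod.card] at h2
    have h5 : 7 * p ≤ p * p := Nat.mul_le_mul_right p hp
    omega
  obtain ⟨c, e, hce⟩ := exists_proj (D1 ∪ D2) (by
    intro w hw
    rcases Finset.mem_union.1 hw with h | h
    · exact hD1 w h
    · exact hD2 w h) hcD
  let φ : (Fin d → ZMod p) → ZMod p × ZMod p := fun x => (c ⬝ᵥ x, e ⬝ᵥ x)
  have hφ0 : ∀ w ∈ D1 ∪ D2, φ w ≠ 0 := by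
    intro w hw h
    apply hce w hw
    exact ⟨congrArg Prod.fst h, congrArg Prod.snd h⟩
  have hφsub : ∀ x y, φ (x - y) = φ x - φ y := by
    intro x y
    simp only [φ, dotProduct_sub]
    rfl
  have hinj : ∀ u ∈ U, ∀ w ∈ U, φ u = φ w → u = w := by
    intro u hu w hw h
    by_contra hne
    have h1 : eq ⟨u, hu⟩ ≠ eq ⟨w, hw⟩ := by
      intro h2
      exact hne (congrArg Subtype.val (eq.injective h2))
    rcases lt_or_gt_of_ne h1 with h2 | h2
    · apply hφ0 (u - w)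
      · rw [Finset.mem_union]
        left
        rw [Finset.mem_image]
        exact ⟨(eq ⟨u, hu⟩, eq ⟨w, hw⟩), by simpa using h2, by simp⟩
      · rw [hφsub, h, sub_self]
    · apply hφ0 (w - u)
      · rw [Finset.mem_union]
        left
        rw [Finset.mem_image]
        exact ⟨(eq ⟨w, hw⟩, eq ⟨u, hu⟩), by simpa using h2, by simp⟩
      · rw [hφsub, h, sub_self]
  have hUim : (U.image φ).card = p := by
    rw [Finset.card_image_of_injOn, hU]
    intro u hu w hw h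
    exact hinj u hu w hw h
  have hpl := plane hp (U.image φ) hUim (by
    intro a ha b hb hab
    obtain ⟨u, hu, rfl⟩ := Finset.mem_image.1 ha
    obtain ⟨w, hw, rfl⟩ := Finset.mem_image.1 hb
    have huw : u ≠ w := by
      rintro rfl
      exact hab rfl
    obtain ⟨T, hTU, hT9, hTL⟩ := h9 u hu w hw huw
    have h1 : (T.image φ).card = T.card := by
      apply Finset.card_image_of_injOn
      intro x hx y hy h
      exact hinj x (hTU hx) y (hTU hy) h
    rw [← h1] at hT9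
    refine hT9.trans (Finset.card_le_card ?_)
    intro z hz
    obtain ⟨x, hx, rfl⟩ := Finset.mem_image.1 hz
    rw [Finset.mem_filter]
    refine ⟨Finset.mem_image_of_mem _ (hTU hx), ?_⟩
    obtain ⟨t, ht⟩ := hTL x hx
    have h2 : ∀ v : Fin d → ZMod p, v ⬝ᵥ x - v ⬝ᵥ u = t * (v ⬝ᵥ w - v ⬝ᵥ u) := by
      intro v
      rw [ht, dotProduct_add, dotProduct_smul, dotProduct_sub, smul_eq_mul]
      ring
    show (c ⬝ᵥ w - c ⬝ᵥ u) * (e ⬝ᵥ x - e ⬝ᵥ u) = (e ⬝ᵥ w - e ⬝ᵥ u) * (c ⬝ᵥ x - c ⬝ᵥ u)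
    rw [h2, h2]
    ring)
  have hcol := hpl (φ u0) (Finset.mem_image_of_mem _ hu0) (φ u1) (Finset.mem_image_of_mem _ hu1)
    (φ u2) (Finset.mem_image_of_mem _ hu2)
  have hcol2 : (c ⬝ᵥ u1 - c ⬝ᵥ u0) * (e ⬝ᵥ u2 - e ⬝ᵥ u0) =
    (e ⬝ᵥ u1 - e ⬝ᵥ u0) * (c ⬝ᵥ u2 - c ⬝ᵥ u0) := hcol
  have hnz : ¬ (c ⬝ᵥ u1 - c ⬝ᵥ u0 = 0 ∧ e ⬝ᵥ u1 - e ⬝ᵥ u0 = 0) := by
    rintro ⟨h1, h2⟩
    apply h01
    apply hinj u0 hu0 u1 hu1
    exact Prod.ext (sub_eq_zero.1 h1).symm (sub_eq_zero.1 h2).symm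
  have hkill : ∃ t : ZMod p, c ⬝ᵥ ((u2 - u0) - t • (u1 - u0)) = 0 ∧
      e ⬝ᵥ ((u2 - u0) - t • (u1 - u0)) = 0 := by
    by_cases h1 : c ⬝ᵥ u1 - c ⬝ᵥ u0 = 0
    · have h2 : e ⬝ᵥ u1 - e ⬝ᵥ u0 ≠ 0 := fun h => hnz ⟨h1, h⟩
      refine ⟨(e ⬝ᵥ u2 - e ⬝ᵥ u0) / (e ⬝ᵥ u1 - e ⬝ᵥ u0), ?_, ?_⟩
      · rw [dotProduct_sub, dotProduct_smul, dotProduct_sub, dotProduct_sub, h1, smul_zero,
          sub_zero]
        rw [h1, zero_mul] at hcol2
        exact (mul_eq_zero.1 hcol2.symm).resolve_left h2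
      · rw [dotProduct_sub, dotProduct_smul, dotProduct_sub, dotProduct_sub, smul_eq_mul]
        field_simp
        ring
    · refine ⟨(c ⬝ᵥ u2 - c ⬝ᵥ u0) / (c ⬝ᵥ u1 - c ⬝ᵥ u0), ?_, ?_⟩
      · rw [dotProduct_sub, dotProduct_smul, dotProduct_sub, dotProduct_sub, smul_eq_mul]
        field_simp
        ring
      · rw [dotProduct_sub, dotProduct_smul, dotProduct_sub, dotProduct_sub, smul_eq_mul]
        field_simp
        linear_combination hcol2
  obtain ⟨t, ht⟩ := hkill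
  apply hce ((u2 - u0) - t • (u1 - u0)) _ ht
  rw [Finset.mem_union]
  right
  exact Finset.mem_image_of_mem _ (Finset.mem_univ _)

end Pool.Agent.K6.H93.Aff
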